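import Pool.Agent.H58.HN.TargetsG

/-!
# Module GE: substitution of polymorphisms
-/

set_option autoImplicit false

namespace Pool.Agent.H40.HN

open Pool.Agent.H58.HN

theorem pf_GE : T_GE := by
  intro T A I J _ _ R _ act _ hA H H' cl cl' i hcl hcl'
  obtain ⟨hH, hc⟩ := hcl
  obtain ⟨hH', hc'⟩ := hcl'
  have hpar : ∀ s s' : {i' : I // i' ≠ i} ⊕ J → T, Pw ({i' : I // i' ≠ i} ⊕ J) R s s' →
      Pw I R (fun i' => if h : i' = i then H' fun j => s (Sum.inr j) else s (Sum.inl ⟨i', h⟩))
        (fun i' => if h : i' = i then H' fun j => s' (Sum.inr j)
          else s' (Sum.inl ⟨i', h⟩)) := by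
    intro s s' hs i'
    dsimp only
    by_cases h : i' = i
    · rw [dif_pos h, dif_pos h]
      exact hH' _ _ fun j => hs (Sum.inr j)
    · rw [dif_neg h, dif_neg h]
      exact hs _
  refine ⟨fun s s' hs => hH _ _ (hpar s s' hs), ?_⟩
  rintro (i₀ | j) s s' hs
  · have e : ∀ r : {i' : I // i' ≠ i} ⊕ J → T,
        sl (fun x : {i' : I // i' ≠ i} ⊕ J → T => H fun i' => if h : i' = i then
          H' fun j => x (Sum.inr j) else x (Sum.inl ⟨i', h⟩)) (Sum.inl i₀) r
        = sl H i₀.1 (fun i' => if h : i' = i then H' fun j => r (Sum.inr j)
          else r (Sum.inl ⟨i', h⟩)) := by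
      intro r
      funext z
      unfold sl
      beta_reduce
      congr 1
      funext i'
      by_cases h : i' = i
      · have h2 : i' ≠ i₀.1 := by
          rintro rfl
          exact i₀.2 h
        rw [dif_pos h, Function.update_of_ne h2, dif_pos h]
        congr 1
      · rw [dif_neg h]
        by_cases h2 : i' = i₀.1
        · subst h2
          rw [Function.update_self, Function.update_self]
        · rw [Function.update_of_ne h2, dif_neg h, Function.update_of_ne]
          intro h3
          apply h2
          have := Sum.inl.inj h3
          rw [← this]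
    rw [e, e]
    exact hc i₀.1 _ _ (hpar s s' hs)
  · have e : ∀ r : {i' : I // i' ≠ i} ⊕ J → T,
        sl (fun x : {i' : I // i' ≠ i} ⊕ J → T => H fun i' => if h : i' = i then
          H' fun j => x (Sum.inr j) else x (Sum.inl ⟨i', h⟩)) (Sum.inr j) r
        = sl H i (fun i' => if h : i' = i then H' fun j => r (Sum.inr j)
          else r (Sum.inl ⟨i', h⟩)) ∘ sl H' j (fun j => r (Sum.inr j)) := by
      intro r
      funext z
      unfold sl
      dsimp only [Function.comp]
      congr 1
      funext i'
      by_cases h : i' = i
      · subst h
        rw [dif_pos rfl, Function.update_self]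
        congr 1
        funext j'
        by_cases h2 : j' = j
        · subst h2; simp
        · rw [Function.update_of_ne h2, Function.update_of_ne]
          intro h3
          exact h2 (Sum.inr.inj h3)
      · rw [dif_neg h, Function.update_of_ne h, dif_neg h, Function.update_of_ne (by simp)]
    rw [e, e, hA.mul, hc i _ _ (hpar s s' hs), hc' j _ _ (fun j => hs (Sum.inr j))]
    · rfl
    · intro x y hxy
      apply hH
      intro k
      by_cases h : k = i
      · subst h; simpa using hxy
      · rw [Function.update_of_ne h, Function.update_of_ne h]; exact hpar s s' hs k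
    · intro x y hxy
      apply hH'
      intro k
      by_cases h : k = j
      · subst h; simpa using hxy
      · rw [Function.update_of_ne h, Function.update_of_ne h]; exact hs (Sum.inr k)

end Pool.Agent.H40.HN
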