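import Pool.Agent.H58.HN.TargetsG

/-!
# Module GF: partial sums of the vector of classes
-/

set_option autoImplicit false

namespace Pool.Agent.H40.HN

open Pool.Agent.H58.HN

theorem pf_GF : T_GF := by
  classical
  intro T A I _ R _ act _ hA H cl hcl S s s' hs
  obtain ⟨hH, hc⟩ := hcl
  induction S using Finset.induction_on with
  | empty =>
    have hab : R (H s) (H s') := hH s s' hs
    have h := hA.add (fun _ _ => H s) (fun _ _ => H s') (fun _ _ _ _ _ _ => hab)
      (H s) (H s') (H s) (H s') hab hab
    have h0 : act (fun _ => H s) (fun _ => H s') = 0 := by
      have h1 : act (fun _ => H s) (fun _ => H s') + act (fun _ => H s) (fun _ => H s')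
          = act (fun _ => H s) (fun _ => H s') := h.symm
      exact add_eq_left.1 h1
    simp only [Finset.sum_empty, Finset.notMem_empty, if_false]
    exact h0.symm
  | insert i S hi ih =>
    rw [Finset.sum_insert hi, ih]
    have hadd := hA.add
      (fun x y => H (fun k => if k ∈ S then x else if k = i then y else s k))
      (fun x y => H (fun k => if k ∈ S then x else if k = i then y else s' k))
      (by
        intro a b c d hab hcd
        apply hH
        intro k
        dsimp only
        by_cases h1 : k ∈ S
        · rw [if_pos h1, if_pos h1]; exact hab
        · rw [if_neg h1, if_neg h1]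
          by_cases h2 : k = i
          · rw [if_pos h2, if_pos h2]; exact hcd
          · rw [if_neg h2, if_neg h2]; exact hs k)
      (s i) (s' i) (s i) (s' i) (hs i) (hs i)
    have e1 : ∀ r : I → T, (fun x => H (fun k => if k ∈ S then x else if k = i then x else r k))
        = fun x => H (fun k => if k ∈ insert i S then x else r k) := by
      intro r
      funext x
      congr 1
      funext k
      by_cases h1 : k ∈ S
      · simp [h1]
      · by_cases h2 : k = i <;> simp [h1, h2]
    have e2 : ∀ r : I → T, (fun x => H (fun k => if k ∈ S then x else if k = i then r i else r k))
        = fun x => H (fun k => if k ∈ S then x else r k) := by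
      intro r
      funext x
      congr 1
      funext k
      by_cases h2 : k = i
      · subst h2; simp
      · simp [h2]
    have e3 : ∀ r : I → T, (fun y => H (fun k => if k ∈ S then r i else if k = i then y else r k))
        = sl H i (fun k => if k ∈ S then r i else r k) := by
      intro r
      funext y
      unfold sl
      congr 1
      funext k
      by_cases h2 : k = i
      · subst h2; simp [hi]
      · simp [h2]
    rw [e1 s, e1 s', e2 s, e2 s'] at hadd
    have e4 := hc i (fun k => if k ∈ S then s i else s k) (fun k => if k ∈ S then s' i else s' k)
      (by
        intro k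
        dsimp only
        by_cases h1 : k ∈ S
        · rw [if_pos h1, if_pos h1]; exact hs i
        · rw [if_neg h1, if_neg h1]; exact hs k)
    rw [← e3 s, ← e3 s'] at e4
    rw [hadd, e4]
    exact add_comm _ _

end Pool.Agent.H40.HN
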